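import Pool.Agent.H77.TA.Core

/-!
# Project ART: module ALG
-/

namespace TA

open H77

theorem H77.BF_false (κ : ℕ) (x : Fin 3) (i : Bool) :
    BF κ (x, false) i = Subgroup.zpowers (del κ) := by
  simp [BF]

theorem H77.comm_zz (κ : ℕ) :
    Commute ((dgen κ false * dgen κ true) ^ (2 * κ)) (dgen κ false) := by
  have h := dgen_rel κ false true
  have h2 := swap_pow (dgen κ false) (dgen κ true) (2 * κ)
  rw [← h] at h2
  rw [commute_iff_eq]
  calc (dgen κ false * dgen κ true) ^ (2 * κ) * dgen κ false
      = dgen κ false * ((dgen κ false)⁻¹ * (dgen κ false * dgen κ true) ^ (2 * κ) * dgen κ false) := by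
        group
    _ = dgen κ false * (dgen κ false * dgen κ true) ^ (2 * κ) := by rw [← h2]

theorem H77.exists_ev (κ : ℕ) (g : G κ) : ∃ l : List (Fin 3 × ℤ), ev (gen κ) l = g := by
  have hmem : g ∈ Subgroup.closure (Set.range (gen κ)) := by
    rw [G_closure]; trivial
  induction hmem using Subgroup.closure_induction with
  | mem g hg =>
    obtain ⟨y, rfl⟩ := hg
    exact ⟨[(y, 1)], by simp⟩
  | one => exact ⟨[], rfl⟩
  | mul g k _ _ hg hk =>
    obtain ⟨l1, h1⟩ := hg
    obtain ⟨l2, h2⟩ := hk
    exact ⟨l1 ++ l2, by rw [ev_append, h1, h2]⟩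
  | inv g _ hg =>
    obtain ⟨l1, h1⟩ := hg
    exact ⟨linv l1, by rw [ev_linv, h1]⟩

/-- Module `ALG`. -/
theorem alg_of (hBL : S_BL) (hGF : S_GOODF) (hDEL : S_DEL) (hD1 : S_D1)
    (hR : S_RETL) : S_ALG := by
  intro κ hκ x
  have hB := hGF κ hκ (x, false)
  have key : ∀ n : ℕ, ∀ q ∈ QF κ (x, false), ∀ q' ∈ QF κ (x, false), ∀ t t' : ℤ, t ≠ 0 →
      gen κ x ^ t * q' = q * gen κ x ^ t' → ∀ w : List (Fin 3 × ℤ), Geo (gen κ) w →
      ev (gen κ) w = q * gen κ x ^ t' → w.length = n → Commute q (gen κ x) := by
    intro n
    induction n using Nat.strong_induction_on with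
    | _ n ih =>
      intro q hq q' hq' t t' ht heq w hw hev hlen
      by_cases hall : ∀ s ∈ w, s.1 = x
      · obtain ⟨p, hp⟩ := ev_of_all (γ := gen κ) hall
        rw [hp] at hev
        have h1 : q = gen κ x ^ (p - t') := by
          rw [zpow_sub, hev]
          group
        rw [h1]
        exact (Commute.refl _).zpow_left _
      · push Not at hall
        obtain ⟨p, w1, hw1, hw2, s0, hs0, hs0x⟩ := strip_left (γ := gen κ) x w hall
        -- the type of the first letter
        obtain ⟨i, hi⟩ : ∃ i, s0.1 = yy x i := by
          rcases letter_cases x s0.1 with h | h | h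
          · exact absurd h hs0x
          · exact ⟨false, h⟩
          · exact ⟨true, h⟩
        have hxy : x ≠ yy x i := (yy_ne x i).symm
        -- the maximal prefix without the third letter
        obtain ⟨u, hu⟩ : ∃ u, u = w1.takeWhile (fun s => decide (s.1 ≠ yy x (!i))) := ⟨_, rfl⟩
        obtain ⟨w'', hw''⟩ : ∃ w'', w'' = w1.dropWhile (fun s => decide (s.1 ≠ yy x (!i))) := ⟨_, rfl⟩
        have huw : u ++ w'' = w1 := by rw [hu, hw'', List.takeWhile_append_dropWhile]
        have hgeo1 : Geo (gen κ) (u ++ w'') := by
          rw [huw]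
          exact hw.sub hw1.isInfix
        have huhead : ∃ s ∈ u.head?, s.1 = yy x i := by
          refine ⟨s0, ?_, hi⟩
          cases w1 with
          | nil => simp at hs0
          | cons a w1 =>
            simp only [List.head?_cons, Option.mem_def, Option.some.injEq] at hs0
            subst hs0
            rw [hu, List.takeWhile_cons_of_pos]
            · simp
            · simp only [decide_eq_true_eq]
              rw [hi]
              exact yy_not x i
        have hul : ∀ s ∈ u, s.1 ≠ yy x (!i) := by
          intro s hs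
          rw [hu] at hs
          have := List.mem_takeWhile_imp hs
          simpa using this
        have hwhead : ∀ s ∈ w''.head?, s.1 = yy x (!i) := by
          intro s hs
          by_contra hne
          have h1 := List.head?_dropWhile_not (fun s : Fin 3 × ℤ => decide (s.1 ≠ yy x (!i))) w1
          rw [← hw'', Option.mem_def.1 hs] at h1
          simp [hne] at h1
        have hev1 : ev (gen κ) (u ++ w'') = gen κ x ^ (-p) * q * gen κ x ^ t' := by
          rw [huw, mul_assoc, ← hev, hw2, ← mul_assoc, ← zpow_add]
          simp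
        have hev2 : ev (gen κ) (u ++ w'') = gen κ x ^ (-(p - t)) * q' * gen κ x ^ (0 : ℤ) := by
          rw [hev1, mul_assoc, ← heq, zpow_zero, mul_one, ← mul_assoc, ← zpow_add]
          congr 2
          ring
        obtain ⟨β, hβ, hβ1, a, ha⟩ := hBL κ hκ x _ hB i q hq p t' u w'' hgeo1 huhead hul hwhead hev1
        obtain ⟨β', hβ', hβ1', a', ha'⟩ := hBL κ hκ x _ hB i q' hq' (p - t) 0 u w'' hgeo1 huhead
          hul hwhead hev2
        have hβm := hβ
        rw [BF_false] at hβ hβ'
        obtain ⟨m, hm⟩ := Subgroup.mem_zpowers_iff.1 hβ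
        obtain ⟨m', hm'⟩ := Subgroup.mem_zpowers_iff.1 hβ'
        -- compare
        have hcmp : del κ ^ m * dgen κ false ^ (a - a') = dgen κ false ^ t * del κ ^ m' := by
          apply iota_injective κ hxy
          rw [hm, hm', map_mul, map_mul, iota_a_zpow, iota_a_zpow]
          have h1 : iota κ x (yy x i) β * gen κ x ^ a =
              gen κ x ^ t * (iota κ x (yy x i) β' * gen κ x ^ a') := by
            have h2 := ha.symm.trans ha'
            have h3 : gen κ x ^ (-(p - t)) = gen κ x ^ (-p) * gen κ x ^ t := by
              rw [← zpow_add]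
              congr 1
              ring
            rw [h3, mul_assoc, mul_assoc, mul_assoc] at h2
            exact mul_left_cancel h2
          rw [zpow_sub, ← mul_assoc, h1]
          group
        obtain ⟨hmm, hev'⟩ := (hDEL κ (by omega)).2.2.2 m m' (a - a') t ht hcmp
        obtain ⟨c, hc⟩ := hev'
        have hβz : β = ((dgen κ false * dgen κ true) ^ (2 * κ)) ^ c := by
          rw [← hm, hc, ← two_mul]
          exact (hDEL κ (by omega)).1 c
        have hβa : Commute β (dgen κ false) := by
          rw [hβz]
          exact (comm_zz κ).zpow_left c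
        have hβx : Commute (iota κ x (yy x i) β) (gen κ x) := by
          have := hβa.map (iota κ x (yy x i))
          rwa [iota_false] at this
        obtain ⟨b, hb⟩ : ∃ b, b = iota κ x (yy x i) β := ⟨_, rfl⟩
        rw [← hb] at hβx ha
        have hbQ : b ∈ QF κ (x, false) := by
          rw [hb]
          exact Subgroup.mem_iSup_of_mem i ⟨β, hβm, rfl⟩
        -- the smaller pair
        have hcomm : ∀ e : ℤ, gen κ x ^ e * b⁻¹ = b⁻¹ * gen κ x ^ e := fun e =>
          ((hβx.inv_left).zpow_right e).eq.symm
        obtain ⟨w2, hw2ev, hw2g, hw2l⟩ := exists_geo (gen κ) ((x, a) :: w'')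
        have hval : ev (gen κ) w2 = (b⁻¹ * q) * gen κ x ^ t' := by
          rw [hw2ev, ev_cons]
          rw [ev_append, ha] at hev1
          have h1 : gen κ x ^ a * ev (gen κ) w'' = b⁻¹ * (q * gen κ x ^ t') := by
            have h2 : gen κ x ^ (-p) * (b * (gen κ x ^ a * ev (gen κ) w'')) =
                gen κ x ^ (-p) * (q * gen κ x ^ t') := by
              simpa only [mul_assoc] using hev1
            rw [← mul_left_cancel h2, inv_mul_cancel_left]
          rw [h1, mul_assoc]
        have hlt : w2.length < n := by
          have h1 : u.length + w''.length ≤ n := by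
            rw [← hlen, ← List.length_append, huw]
            exact hw1.length_le
          obtain ⟨r1, -⟩ := hR κ x (yy x i) hxy
          obtain ⟨l', hl', hle⟩ := r1 u (dgen κ false ^ (-p) * β * dgen κ false ^ a) (by
            rw [ha, map_mul, map_mul, iota_a_zpow, iota_a_zpow, hb])
          have hm0 : m ≠ 0 := by
            rintro rfl
            rw [zpow_zero] at hm
            exact hβ1 hm.symm
          have h2 := hD1 κ m (-p) a hm0 l' (by rw [hl', hm])
          simp only [List.length_cons] at hw2l
          omega
        have hc1 := ih w2.length hlt (b⁻¹ * q) ((QF κ (x, false)).mul_mem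
          ((QF κ (x, false)).inv_mem hbQ) hq) (b⁻¹ * q') ((QF κ (x, false)).mul_mem
          ((QF κ (x, false)).inv_mem hbQ) hq') t t' ht (by
            rw [← mul_assoc, hcomm, mul_assoc, heq, mul_assoc]) w2 hw2g hval rfl
        have : q = b * (b⁻¹ * q) := by rw [mul_inv_cancel_left]
        rw [this]
        exact hβx.mul_left hc1
  intro q hq q' hq' t t' ht heq
  obtain ⟨l, hl⟩ := H77.exists_ev κ (q * gen κ x ^ t')
  obtain ⟨w, hw, hg, -⟩ := exists_geo (gen κ) l
  rw [hl] at hw
  exact key w.length q hq q' hq' t t' ht heq w hg hw rfl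

end TA
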