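import Pool.Agent.H77.TA.Strip

/-!
# Project ART: modules TL1, CL, BL, QA, ALG
-/

namespace TA

open H77

/-- the predicate `long` of the modules `TL1`, `CL` -/
def H77.LgP (κ : ℕ) (B : Bool → Subgroup (D κ)) (j : Bool) : Prop :=
  ∀ β ∈ B j, β ≠ 1 → ∀ (p q : ℤ) (l : List (Bool × ℤ)),
    ev (dgen κ) l = dgen κ false ^ p * β * dgen κ false ^ q → 2 ≤ l.length

theorem H77.ne_zpow_of_good {κ : ℕ} {B : Bool → Subgroup (D κ)} (hB : GoodB κ B) {i : Bool}
    {β : D κ} (hβ : β ∈ B i) (h1 : β ≠ 1) (m n : ℤ) : dgen κ false ^ m * β ≠ dgen κ false ^ n := by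
  intro h
  have h2 : β = dgen κ false ^ (n - m) := by
    rw [zpow_sub, ← h, ← zpow_neg]
    have : dgen κ false ^ m * β * dgen κ false ^ (-m) = β := by
      have h3 : β = dgen κ false ^ (-m) * dgen κ false ^ n := by
        rw [← h, ← mul_assoc, ← zpow_add]
        simp
      rw [h3, ← zpow_add, ← zpow_add, ← zpow_add]
      congr 1
      ring
    rw [this]
  have h4 := hB.triv i (n - m) (h2 ▸ hβ)
  rw [h4, zpow_zero] at h2
  exact h1 h2

/-- Module `TL1`. -/
theorem tl1_of (hR : S_RETL) : S_TL1 := by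
  intro κ x B hB i q hq
  obtain ⟨j, hj⟩ : ∃ j, j = !i := ⟨_, rfl⟩
  rw [← hj] at hq
  induction hq generalizing i with
  | one j =>
    intro s t
    by_cases h : s + t = 0
    · refine ⟨[], Tail.nil i, ?_⟩
      rw [ev_nil, mul_one, ← zpow_add, h, zpow_zero]
    · refine ⟨[(x, s + t)], Tail.pow i _ h, ?_⟩
      rw [ev_cons, ev_nil, mul_one, mul_one, ← zpow_add]
  | mul j β q' hβ hβ1 hq' ih =>
    intro s t
    have hij : i = !j := by rw [hj, Bool.not_not]
    subst hij
    clear hj
    have hxy : x ≠ yy x j := (yy_ne x j).symm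
    obtain ⟨p, r, l, hblk, hl⟩ := exists_block hR hxy β (fun n h => by
      have := ne_zpow_of_good hB hβ hβ1 0 n
      simp [h] at this)
    obtain ⟨Y, hY, hev⟩ := ih j (by rw []) r t
    have hlen : LgP κ B j → 2 ≤ l.length := by
      intro hlg
      obtain ⟨h1, -⟩ := hR κ x (yy x j) hxy
      have hevl : ev (gen κ) l = iota κ x (yy x j) (dgen κ false ^ (-p) * β * dgen κ false ^ (-r)) := by
        rw [map_mul, map_mul, iota_a_zpow, iota_a_zpow, hl]
        group
      obtain ⟨l', hl', hle⟩ := h1 l _ hevl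
      exact (hlg β hβ hβ1 _ _ l' hl').trans hle
    have hYn : Tail κ x (LgP κ B) (!(!j)) Y := by
      rw [Bool.not_not]
      exact hY
    have hb : Blk κ x (yy x (!(!j))) l := by
      rw [Bool.not_not]
      exact hblk
    have hlen' : LgP κ B (!(!j)) → 2 ≤ l.length := by
      rw [Bool.not_not]
      exact hlen
    have hval : gen κ x ^ (s + p) * (ev (gen κ) l * ev (gen κ) Y) =
        gen κ x ^ s * (iota κ x (yy x j) β * q') * gen κ x ^ t := by
      rw [hev, hl, zpow_add]
      simp only [mul_assoc]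
    by_cases h : s + p = 0
    · refine ⟨l ++ Y, Tail.blk (!j) l Y hb hlen' hYn, ?_⟩
      rw [ev_append, ← hval, h, zpow_zero, one_mul]
    · refine ⟨(x, s + p) :: (l ++ Y), Tail.pblk (!j) _ l Y h hb hlen' hYn, ?_⟩
      rw [ev_cons, ev_append, ← hval]

/-- Module `CL`. -/
theorem cl_of (h1 : S_TL1) (h2 : S_TL2) (hG : S_GR) (hR : S_RETL) : S_CL := by
  intro κ hκ x B hB i q hq α hα t w' hw' hhead heq
  have hxy : x ≠ yy x i := (yy_ne x i).symm
  obtain ⟨p, r, γ, hblk, hl⟩ := exists_block hR hxy α hα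
  obtain ⟨Y, hY, hev⟩ := h1 κ x B hB i q hq r t
  have hlg : LgP κ B false ∨ LgP κ B true := by
    obtain ⟨j, hj⟩ := hB.long
    cases j
    · exact Or.inl hj
    · exact Or.inr hj
  obtain ⟨m, hm, hmev⟩ : ∃ m : List (Fin 3 × ℤ), (m = [] ∨ ∃ e : ℤ, e ≠ 0 ∧ m = [(x, e)]) ∧
      ev (gen κ) m = gen κ x ^ p := by
    by_cases hp : p = 0
    · exact ⟨[], Or.inl rfl, by simp [hp]⟩
    · exact ⟨[(x, p)], Or.inr ⟨p, hp, rfl⟩, by simp⟩
  have hlast : ∀ s ∈ (linv w').getLast?, s.1 = yy x (!i) := by
    intro s hs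
    rw [linv, List.getLast?_reverse, List.head?_map] at hs
    obtain ⟨s', hs', rfl⟩ := Option.mem_map.1 hs
    exact hhead s' hs'
  obtain ⟨hred, hu⟩ := h2 κ x (LgP κ B) hlg i Y hY γ hblk (linv w') hw'.linv hlast m hm
  have hev1 : ev (gen κ) (linv w' ++ m ++ γ ++ Y) = 1 := by
    rw [ev_append, ev_append, ev_append, ev_linv, hev, hmev, heq, hl]
    group
  have hne : linv w' ++ m ++ γ ++ Y ≠ [] := by
    obtain ⟨-, -, ⟨s, hs, -⟩, -⟩ := hblk
    intro h
    have : γ = [] := by
      simp only [List.append_eq_nil_iff] at h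
      exact h.1.2
    rw [this] at hs
    simp at hs
  obtain ⟨u, hinf, hz, hκu, v, hv, hvev⟩ := hG κ (by omega) _ hred hne hev1
  obtain ⟨u1, u', u2, rfl, hlen, hgeo⟩ := hu u hinf hz
  have := hgeo (linv u1 ++ v ++ linv u2) (by
    rw [ev_append, ev_append, ev_linv, ev_linv, hvev, ev_append, ev_append]
    group)
  simp only [List.length_append, length_linv] at this hκu
  omega

/-- Module `BL`. -/
theorem bl_of (hC : S_CL) (hA : S_ALTQ) (hR : S_RETL) : S_BL := by
  intro κ hκ x B hB i q hq t0 t1 u w'' hgeo hu hul hw'' heq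
  have hxy : x ≠ yy x i := (yy_ne x i).symm
  obtain ⟨s0, hs0, hs0y⟩ := hu
  obtain ⟨j, hj⟩ := hA κ x B q hq
  -- the trivial case
  have htriv : q ≠ 1 := by
    rintro rfl
    have h1 : ev (gen κ) (u ++ w'') = gen κ x ^ (t1 - t0) := by
      rw [heq, mul_one, ← zpow_add]
      congr 1
      ring
    have h2 := hgeo [(x, t1 - t0)] (by rw [h1]; simp)
    cases u with
    | nil => simp at hs0
    | cons s u =>
      simp only [List.cons_append, List.length_cons, List.length_append, List.length_nil] at h2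
      have hu0 : u = [] := List.length_eq_zero_iff.1 (by omega)
      have hw0 : w'' = [] := List.length_eq_zero_iff.1 (by omega)
      subst hu0
      subst hw0
      simp only [List.head?_cons, Option.mem_def, Option.some.injEq] at hs0
      subst hs0
      simp only [List.append_nil, ev_cons, ev_nil, mul_one] at h1
      rw [hs0y] at h1
      have h3 := gen_zpow_ne (yy_ne x i) h1
      exact hgeo.red.2 s (by simp) h3
  by_cases hji : j = i
  · subst hji
    cases hj with
    | one => exact absurd rfl htriv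
    | mul _ β q' hβ hβ1 hq' =>
      obtain ⟨-, h2, -⟩ := hR κ x (yy x j) hxy
      obtain ⟨l', -, -, hl'⟩ := h2 u (fun s hs => by
        rcases letter_cases x s.1 with h | h | h
        · exact Or.inl h
        · cases j
          · exact Or.inr h
          · exact absurd h (hul s hs)
        · cases j
          · exact absurd h (hul s hs)
          · exact Or.inr h)
      by_cases hα : ∀ n : ℤ, (ev (dgen κ) l')⁻¹ * (dgen κ false ^ (-t0) * β) ≠ dgen κ false ^ n
      · exfalso
        refine hC κ hκ x B hB j q' hq' _ hα t1 w'' (hgeo.sub (List.suffix_append _ _).isInfix)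
          hw'' ?_
        rw [map_mul, map_inv, ← hl', map_mul, iota_a_zpow]
        rw [ev_append] at heq
        rw [eq_comm]
        calc (ev (gen κ) u)⁻¹ * (gen κ x ^ (-t0) * iota κ x (yy x j) β) * q' * gen κ x ^ t1
            = (ev (gen κ) u)⁻¹ * (gen κ x ^ (-t0) * (iota κ x (yy x j) β * q') * gen κ x ^ t1) := by
              simp only [mul_assoc]
          _ = (ev (gen κ) u)⁻¹ * (ev (gen κ) u * ev (gen κ) w'') := by rw [heq]
          _ = ev (gen κ) w'' := by rw [inv_mul_cancel_left]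
      · push Not at hα
        obtain ⟨n, hn⟩ := hα
        refine ⟨β, hβ, hβ1, -n, ?_⟩
        have h3 : ev (dgen κ) l' = dgen κ false ^ (-t0) * β * dgen κ false ^ (-n) := by
          rw [zpow_neg (dgen κ false) n, ← hn]
          group
        rw [hl', h3, map_mul, map_mul, iota_a_zpow, iota_a_zpow]
  · have hjn : j = !i := by cases i <;> cases j <;> simp_all
    subst hjn
    exfalso
    obtain ⟨j, hj'⟩ : ∃ j, j = !i := ⟨_, rfl⟩
    rw [← hj'] at hj
    cases hj with
    | one => exact absurd rfl htriv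
    | mul _ β q' hβ hβ1 hq' =>
      refine hC κ hκ x B hB j q' hq' (dgen κ false ^ (-t0) * β)
        (fun n => ne_zpow_of_good hB hβ hβ1 _ n) t1 (u ++ w'') hgeo ?_ ?_
      · intro s hs
        cases u with
        | nil => simp at hs0
        | cons a u =>
          simp only [List.cons_append, List.head?_cons, Option.mem_def, Option.some.injEq] at hs hs0
          subst hs
          subst hs0
          rw [hs0y, hj', Bool.not_not]
      · rw [heq, map_mul, iota_a_zpow]
        simp only [mul_assoc]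

/-- Module `QA`. -/
theorem qa_of (hC : S_CL) (hBL : S_BL) (hA : S_ALTQ) (hR : S_RETL) : S_QA := by
  intro κ hκ x B hB
  have h1 : ∀ n : ℤ, gen κ x ^ n ∈ QQ κ x B → n = 0 := by
    intro n hn
    obtain ⟨j, hj⟩ := hA κ x B _ hn
    by_contra hn0
    obtain ⟨q, hq⟩ : ∃ q, q = gen κ x ^ n := ⟨_, rfl⟩
    rw [← hq] at hj
    cases hj with
    | one => exact hn0 (gen_zpow_eq_one hq.symm)
    | mul _ β q' hβ hβ1 hq' =>
      refine hC κ hκ x B hB j q' hq' (dgen κ false ^ (-n) * β)
        (fun m => ne_zpow_of_good hB hβ hβ1 _ m) 0 [] ?_ ?_ ?_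
      · intro l' _
        exact Nat.zero_le _
      · intro s hs
        simp at hs
      · rw [ev_nil, map_mul, iota_a_zpow, zpow_zero, mul_one, mul_assoc, hq, ← zpow_add]
        simp
  have hmem : ∀ i (β : D κ), β ∈ B i → iota κ x (yy x i) β ∈ QQ κ x B := fun i β hβ =>
    Subgroup.mem_iSup_of_mem i ⟨β, hβ, rfl⟩
  refine ⟨h1, fun i α => ⟨fun hα => ?_, hmem i α⟩⟩
  have hxy : x ≠ yy x i := (yy_ne x i).symm
  obtain ⟨-, -, h3, -⟩ := hR κ x (yy x i) hxy
  obtain ⟨l, hg, hl, hev⟩ := h3 α
  by_cases hall : ∀ s ∈ l, s.1 = x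
  · obtain ⟨n, hn⟩ := ev_of_all (γ := gen κ) hall
    rw [hn] at hev
    have h5 := h1 n (hev ▸ hα)
    rw [h5, zpow_zero] at hev
    have : α = 1 := iota_injective κ hxy (by rw [← hev, map_one])
    rw [this]
    exact (B i).one_mem
  · push Not at hall
    obtain ⟨p, u, hu1, hu2, s, hs, hsx⟩ := strip_left (γ := gen κ) x l hall
    have hus : ∀ s ∈ u, s.1 = x ∨ s.1 = yy x i := fun s hs => hl s (hu1.subset hs)
    obtain ⟨β, hβ, -, t, ht⟩ := hBL κ hκ x B hB i _ hα p 0 u []
      (by rw [List.append_nil]; exact hg.sub hu1.isInfix)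
      ⟨s, hs, (hus s (List.mem_of_head? hs)).resolve_left hsx⟩
      (fun s hs h => by
        rcases hus s hs with h' | h'
        · exact (yy_ne x (!i)) (h.symm.trans h')
        · exact yy_not x i (h'.symm.trans h))
      (fun s hs => by simp at hs)
      (by
        rw [List.append_nil, zpow_zero, mul_one, ← hev, hu2, ← mul_assoc, ← zpow_add]
        simp)
    have h5 : iota κ x (yy x i) α = iota κ x (yy x i) β * gen κ x ^ t := by
      rw [← hev, hu2, ht, ← mul_assoc, ← mul_assoc, ← zpow_add]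
      simp
    have h6 : gen κ x ^ t ∈ QQ κ x B := by
      have : gen κ x ^ t = (iota κ x (yy x i) β)⁻¹ * iota κ x (yy x i) α := by
        rw [h5]
        group
      rw [this]
      exact (QQ κ x B).mul_mem ((QQ κ x B).inv_mem (hmem i β hβ)) hα
    have h7 := h1 t h6
    rw [h7, zpow_zero, mul_one] at h5
    rw [iota_injective κ hxy h5]
    exact hβ

end TA
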