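import Pool.Agent.H14.TA.Stmts

/-!
# Project ART: stripping syllables, alternating products
-/

namespace TA

namespace H77

theorem yy_not (x : Fin 3) (i : Bool) : yy x i ≠ yy x (!i) := yy_ne' x i

section
variable {I Γ : Type*} [Group Γ] {γ : I → Γ}

/-- the value of a list all of whose letters are `x` is a power of `γ x` -/
theorem ev_of_all {x : I} {l : List (I × ℤ)} (h : ∀ s ∈ l, s.1 = x) : ∃ n : ℤ, ev γ l = γ x ^ n := by
  induction l with
  | nil => exact ⟨0, by simp⟩
  | cons s l ih =>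
    obtain ⟨n, hn⟩ := ih fun t ht => h t (by simp [ht])
    refine ⟨s.2 + n, ?_⟩
    rw [ev_cons, hn, h s (by simp), zpow_add]

/-- strip the syllables `x` at the beginning -/
theorem strip_left (x : I) (l : List (I × ℤ)) (h : ∃ s ∈ l, s.1 ≠ x) :
    ∃ (p : ℤ) (l1 : List (I × ℤ)), l1 <:+ l ∧ ev γ l = γ x ^ p * ev γ l1 ∧
      ∃ s ∈ l1.head?, s.1 ≠ x := by
  induction l with
  | nil => obtain ⟨s, hs, -⟩ := h; simp at hs
  | cons s l ih =>
    by_cases hs : s.1 = x
    · obtain ⟨p, l1, h1, h2, h3⟩ := ih (by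
        obtain ⟨s', hs', hne⟩ := h
        rcases List.mem_cons.1 hs' with rfl | hs'
        · exact absurd hs hne
        · exact ⟨s', hs', hne⟩)
      refine ⟨s.2 + p, l1, h1.trans (List.suffix_cons _ _), ?_, h3⟩
      rw [ev_cons, h2, hs, zpow_add, mul_assoc]
    · exact ⟨0, s :: l, List.suffix_refl _, by simp, s, by simp, hs⟩

/-- strip the syllables `x` at the end -/
theorem strip_right (x : I) (l : List (I × ℤ)) (h : ∃ s ∈ l.head?, s.1 ≠ x) :
    ∃ (r : ℤ) (l1 : List (I × ℤ)), l1 <+: l ∧ ev γ l = ev γ l1 * γ x ^ r ∧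
      (∃ s ∈ l1.head?, s.1 ≠ x) ∧ ∃ s ∈ l1.getLast?, s.1 ≠ x := by
  induction l using List.reverseRecOn with
  | nil => obtain ⟨s, hs, -⟩ := h; simp at hs
  | append_singleton l s ih =>
    by_cases hs : s.1 = x
    · obtain ⟨r, l1, h1, h2, h3⟩ := ih (by
        obtain ⟨s', hs', hne⟩ := h
        cases l with
        | nil =>
          simp only [List.nil_append, List.head?_cons, Option.mem_def, Option.some.injEq] at hs'
          subst hs'
          exact absurd hs hne
        | cons a l =>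
          refine ⟨s', ?_, hne⟩
          simpa using hs')
      refine ⟨r + s.2, l1, h1.trans (List.prefix_append _ _), ?_, h3⟩
      rw [ev_append, h2, ev_cons, ev_nil, hs, mul_one, zpow_add, mul_assoc]
    · exact ⟨0, l ++ [s], List.prefix_refl _, by simp, h, s, by simp, hs⟩

end

theorem gsum_gen (κ : ℕ) (f : Fin 3 → ℤ) (x : Fin 3) :
    gsum κ f (gen κ x) = Multiplicative.ofAdd (f x) := by
  rw [gsum, lift_gen]

theorem gen_zpow_ne {κ : ℕ} {x y : Fin 3} (hxy : y ≠ x) {e n : ℤ} (h : gen κ y ^ e = gen κ x ^ n) :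
    e = 0 := by
  have h1 := congrArg (fun g => Multiplicative.toAdd (gsum κ (fun z => if z = y then 1 else 0) g)) h
  simp only [map_zpow, gsum_gen] at h1
  simpa [hxy.symm] using h1

theorem gen_zpow_eq_one {κ : ℕ} {x : Fin 3} {n : ℤ} (h : gen κ x ^ n = 1) : n = 0 := by
  have h1 := congrArg (fun g => Multiplicative.toAdd (gsum κ (fun _ => 1) g)) h
  simp only [map_zpow, gsum_gen] at h1
  simpa using h1

theorem iota_a_zpow (κ : ℕ) (x y : Fin 3) (n : ℤ) :
    iota κ x y (dgen κ false ^ n) = gen κ x ^ n := by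
  rw [map_zpow, iota_false]

/-- an element of a dihedral subgroup outside `⟨x⟩` contains a block -/
theorem exists_block (hR : S_RETL) {κ : ℕ} {x y : Fin 3} (hxy : x ≠ y) (α : D κ)
    (hα : ∀ n : ℤ, α ≠ dgen κ false ^ n) :
    ∃ (p r : ℤ) (l : List (Fin 3 × ℤ)), Blk κ x y l ∧
      iota κ x y α = gen κ x ^ p * ev (gen κ) l * gen κ x ^ r := by
  obtain ⟨-, -, h3, -⟩ := hR κ x y hxy
  obtain ⟨l, hg, hl, hev⟩ := h3 α
  have hex : ∃ s ∈ l, s.1 ≠ x := by
    by_contra hcon
    push Not at hcon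
    obtain ⟨n, hn⟩ := ev_of_all (γ := gen κ) hcon
    apply hα n
    apply iota_injective κ hxy
    rw [← hev, hn, iota_a_zpow]
  obtain ⟨p, l1, h1, h2, h3⟩ := strip_left (γ := gen κ) x l hex
  obtain ⟨r, l2, h4, h5, h6, h7⟩ := strip_right (γ := gen κ) x l1 h3
  have hinf : l2 <:+: l := h4.isInfix.trans h1.isInfix
  refine ⟨p, r, l2, ⟨hg.sub hinf, fun s hs => hl s (hinf.subset hs), ?_, ?_⟩, ?_⟩
  · obtain ⟨s, hs, hne⟩ := h6
    exact ⟨s, hs, (hl s (hinf.subset (List.mem_of_head? hs))).resolve_left hne⟩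
  · obtain ⟨s, hs, hne⟩ := h7
    exact ⟨s, hs, (hl s (hinf.subset (List.mem_of_getLast? hs))).resolve_left hne⟩
  · rw [← hev, h2, h5, mul_assoc]

end H77

/-- Module `ALTQ`. -/
theorem altq : S_ALTQ := by
  intro κ x B q hq
  have hmul : ∀ (i : Bool) (β : D κ), β ∈ B i → ∀ q, (∃ j, Alt κ x B j q) →
      ∃ j, Alt κ x B j (iota κ x (yy x i) β * q) := by
    rintro i β hβ q ⟨j, hj⟩
    by_cases h1 : β = 1
    · subst h1
      exact ⟨j, by simpa using hj⟩
    by_cases hij : j = i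
    · subst hij
      cases hj with
      | one => exact ⟨j, Alt.mul j β 1 hβ h1 (Alt.one _)⟩
      | mul _ β' q' hβ' hβ1 hq' =>
        by_cases h2 : β * β' = 1
        · refine ⟨!j, ?_⟩
          rw [← mul_assoc, ← map_mul, h2, map_one, one_mul]
          exact hq'
        · refine ⟨j, ?_⟩
          rw [← mul_assoc, ← map_mul]
          exact Alt.mul j _ _ ((B j).mul_mem hβ hβ') h2 hq'
    · have : j = !i := by cases i <;> cases j <;> simp_all
      subst this
      exact ⟨i, Alt.mul i β q hβ h1 hj⟩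
  rw [QQ, Subgroup.iSup_eq_closure] at hq
  induction hq using Subgroup.closure_induction_left with
  | one => exact ⟨false, Alt.one _⟩
  | mul_left g hg y _ ih =>
    obtain ⟨i, β, hβ, rfl⟩ := Set.mem_iUnion.1 hg
    exact hmul i β hβ y ih
  | inv_mul_cancel g hg y _ ih =>
    obtain ⟨i, β, hβ, rfl⟩ := Set.mem_iUnion.1 hg
    rw [← map_inv]
    exact hmul i β⁻¹ ((B i).inv_mem hβ) y ih

end TA
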